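import Pool.Agent.H668Z.SC.Side

set_option autoImplicit false
set_option linter.unusedSectionVars false

namespace Pool.Agent.H915Z.Side

open Pool.Agent.H668Z.SC

variable {G : Type} [Group G]

/-- no cancellation between two consecutive edges -/
def R (a b : G × Bool) : Prop := ¬ (b.1 = 1 ∧ b.2 = !a.2)

/-- vertices of the tree: reduced edge paths from the base vertex -/
abbrev W (G : Type) [Group G] : Type := {L : List (G × Bool) // L.IsChain R}

def gl (g : G) : List (G × Bool) → List (G × Bool)
  | [] => []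
  | x :: L => (g * x.1, x.2) :: L

open Classical in
noncomputable def tl (ε : Bool) : List (G × Bool) → List (G × Bool)
  | [] => [(1, ε)]
  | x :: L => if x = (1, !ε) then L else (1, ε) :: x :: L

lemma gl_chain (g : G) {L : List (G × Bool)} (h : L.IsChain R) : (gl g L).IsChain R := by
  match L, h with
  | [], _ => exact List.IsChain.nil
  | [x], _ => exact List.IsChain.singleton _
  | x :: y :: L, h =>
    rw [List.isChain_cons_cons] at h
    simp only [gl]
    rw [List.isChain_cons_cons]
    exact ⟨h.1, h.2⟩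

lemma tl_chain (ε : Bool) {L : List (G × Bool)} (h : L.IsChain R) : (tl ε L).IsChain R := by
  match L, h with
  | [], _ => exact List.IsChain.singleton _
  | x :: L, h =>
    simp only [tl]
    split_ifs with hx
    · exact h.tail
    · rw [List.isChain_cons_cons]
      refine ⟨?_, h⟩
      rintro ⟨h1, h2⟩
      exact hx (Prod.ext h1 h2)

lemma gl_one (L : List (G × Bool)) : gl 1 L = L := by
  cases L <;> simp [gl]

lemma gl_mul (g h : G) (L : List (G × Bool)) : gl (g * h) L = gl g (gl h L) := by
  cases L <;> simp [gl, mul_assoc]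

lemma tl_tl (ε : Bool) {L : List (G × Bool)} (h : L.IsChain R) : tl (!ε) (tl ε L) = L := by
  match L, h with
  | [], _ => simp [tl]
  | [x], _ =>
    by_cases hx : x = (1, !ε)
    · simp [tl, hx]
    · simp [tl, hx]
  | x :: y :: L, h =>
    rw [List.isChain_cons_cons] at h
    by_cases hx : x = (1, !ε)
    · have hy : y ≠ (1, ε) := by
        rintro rfl
        apply h.1
        simp [hx]
      simp [tl, hx, hy]
    · simp [tl, hx]

def gP : G →* Equiv.Perm (W G) where
  toFun g :=
    { toFun := fun L => ⟨gl g L.1, gl_chain g L.2⟩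
      invFun := fun L => ⟨gl g⁻¹ L.1, gl_chain _ L.2⟩
      left_inv := fun L => Subtype.ext (by simp only [← gl_mul, inv_mul_cancel, gl_one])
      right_inv := fun L => Subtype.ext (by simp only [← gl_mul, mul_inv_cancel, gl_one]) }
  map_one' := Equiv.ext fun L => Subtype.ext (gl_one _)
  map_mul' g h := Equiv.ext fun L => Subtype.ext (gl_mul _ _ _)

noncomputable def tP : Equiv.Perm (W G) where
  toFun L := ⟨tl true L.1, tl_chain _ L.2⟩
  invFun L := ⟨tl false L.1, tl_chain _ L.2⟩
  left_inv L := Subtype.ext (tl_tl true L.2)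
  right_inv L := Subtype.ext (tl_tl false L.2)

noncomputable def act : GZ G →* Equiv.Perm (W G) :=
  Monoid.Coprod.lift gP (zpowersHom _ tP)

lemma act_inl (g : G) (L : W G) : (act (Monoid.Coprod.inl g) L).1 = gl g L.1 := by
  simp only [act, Monoid.Coprod.lift_apply_inl]; rfl

lemma act_tt : act (tt G) = tP := by
  simp [act, tt]

lemma act_TT (ε : Bool) (L : W G) : (act (TT G ε) L).1 = tl ε L.1 := by
  cases ε
  · simp only [TT, Bool.false_eq_true, if_false, map_inv, act_tt]; rfl
  · simp only [TT, if_true, act_tt]; rfl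

lemma TT_inv (ε : Bool) : (TT G ε)⁻¹ = TT G (!ε) := by
  cases ε <;> simp [TT]

lemma gz_ind (P : GZ G → Prop) (h1 : ∀ g : G, P (Monoid.Coprod.inl g))
    (h2 : ∀ ε, P (TT G ε)) (h3 : ∀ a b, P a → P b → P (a * b)) (γ : GZ G) : P γ := by
  induction γ using Monoid.Coprod.induction_on with
  | inl m => exact h1 m
  | mul a b ha hb => exact h3 a b ha hb
  | inr n =>
    have key : ∀ k : ℤ, P (Monoid.Coprod.inr (Multiplicative.ofAdd k)) := by
      intro k
      induction k using Int.induction_on with
      | zero => simpa using h1 1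
      | succ i ih =>
        rw [ofAdd_add, map_mul]
        exact h3 _ _ ih (h2 true)
      | pred i ih =>
        rw [sub_eq_add_neg, ofAdd_add, map_mul, ofAdd_neg (1 : ℤ), map_inv]
        exact h3 _ _ ih (h2 false)
    exact key n.toAdd

def base : W G := ⟨[], List.IsChain.nil⟩

/-- the product of the letters of a path -/
def pr : List (G × Bool) → GZ G
  | [] => 1
  | x :: L => Monoid.Coprod.inl x.1 * TT G x.2 * pr L

lemma pr_act (γ : GZ G) : ∀ L : W G,
    ∃ g : G, γ * pr L.1 = pr (act γ L).1 * Monoid.Coprod.inl g := by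
  induction γ using gz_ind with
  | h1 g =>
    rintro ⟨L, hL⟩
    rw [act_inl]
    cases L with
    | nil => exact ⟨g, by simp [gl, pr]⟩
    | cons x L => exact ⟨1, by simp [gl, pr, mul_assoc]⟩
  | h2 ε =>
    rintro ⟨L, hL⟩
    rw [act_TT]
    refine ⟨1, ?_⟩
    cases L with
    | nil => simp [tl, pr]
    | cons x L =>
      by_cases hx : x = (1, !ε)
      · simp [tl, pr, hx, ← TT_inv]
      · simp [tl, pr, hx]
  | h3 a b ha hb =>
    intro L
    obtain ⟨g, hg⟩ := hb L
    obtain ⟨g', hg'⟩ := ha (act b L)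
    refine ⟨g' * g, ?_⟩
    rw [mul_assoc, hg, ← mul_assoc, hg', map_mul, map_mul, mul_assoc]
    rfl

/-- adjacent vertices -/
def Adj (L L' : List (G × Bool)) : Prop := (∃ x, L' = L ++ [x]) ∨ (∃ x, L = L' ++ [x])

lemma Adj.symm {L L' : List (G × Bool)} (h : Adj L L') : Adj L' L := Or.symm h

lemma Adj.head {L L' : List (G × Bool)} (h : Adj L L') (h1 : L ≠ []) (h2 : L' ≠ []) :
    L.head? = L'.head? := by
  rcases h with ⟨x, rfl⟩ | ⟨x, rfl⟩
  · cases L with
    | nil => exact absurd rfl h1
    | cons y L => rfl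
  · cases L' with
    | nil => exact absurd rfl h2
    | cons y L => rfl

lemma adj_gl (g : G) (L : List (G × Bool)) (x : G × Bool) : Adj (gl g L) (gl g (L ++ [x])) := by
  cases L with
  | nil => exact Or.inl ⟨_, rfl⟩
  | cons y L => exact Or.inl ⟨x, rfl⟩

lemma adj_tl (ε : Bool) (L : List (G × Bool)) (x : G × Bool) :
    Adj (tl ε L) (tl ε (L ++ [x])) := by
  cases L with
  | nil =>
    by_cases hx : x = (1, !ε)
    · exact Or.inr ⟨(1, ε), by simp [tl, hx]⟩
    · exact Or.inl ⟨x, by simp [tl, hx]⟩
  | cons y L =>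
    by_cases hy : y = (1, !ε)
    · exact Or.inl ⟨x, by simp [tl, hy]⟩
    · exact Or.inl ⟨x, by simp [tl, hy]⟩

lemma adj_act (γ : GZ G) : ∀ L L' : W G, Adj L.1 L'.1 → Adj (act γ L).1 (act γ L').1 := by
  induction γ using gz_ind with
  | h1 g =>
    intro L L' h
    rw [act_inl, act_inl]
    rcases h with ⟨x, hx⟩ | ⟨x, hx⟩
    · rw [hx]; exact adj_gl g _ x
    · rw [hx]; exact (adj_gl g _ x).symm
  | h2 ε =>
    intro L L' h
    rw [act_TT, act_TT]
    rcases h with ⟨x, hx⟩ | ⟨x, hx⟩
    · rw [hx]; exact adj_tl ε _ x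
    · rw [hx]; exact (adj_tl ε _ x).symm
  | h3 a b ha hb =>
    intro L L' h
    rw [map_mul]
    exact ha _ _ (hb _ _ h)

/-- the path to the vertex `γ G` -/
noncomputable def path (γ : GZ G) : List (G × Bool) := (act γ base).1

lemma path_mul (a b : GZ G) : path (a * b) = (act a (act b base)).1 := by
  rw [path, map_mul]; rfl

lemma path_mul_inl (γ : GZ G) (g : G) : path (γ * Monoid.Coprod.inl g) = path γ := by
  rw [path_mul, path]
  have : act (Monoid.Coprod.inl g) base = (base : W G) := Subtype.ext (act_inl g base)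
  rw [this]

lemma path_inl_mul (γ : GZ G) (g : G) : path (Monoid.Coprod.inl g * γ) = gl g (path γ) := by
  rw [path_mul, act_inl]; rfl

lemma path_TT_mul (γ : GZ G) (ε : Bool) : path (TT G ε * γ) = tl ε (path γ) := by
  rw [path_mul, act_TT]; rfl

lemma path_TT (ε : Bool) : path (TT G ε) = [(1, ε)] := act_TT ε base

lemma through_aux (γ : GZ G) (hγ : path γ ≠ []) (L : List (G × Bool)) :
    ∀ hL : L.IsChain R, (path γ).head? ≠ L.head? →
      (act γ⁻¹ ⟨L, hL⟩).1.head? = (path γ⁻¹).head? := by
  have ne : ∀ (L : List (G × Bool)) (hL : L.IsChain R), (path γ).head? ≠ L.head? →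
      (act γ⁻¹ ⟨L, hL⟩).1 ≠ [] := by
    intro L hL h h0
    apply h
    have h1 : act γ⁻¹ ⟨L, hL⟩ = base := Subtype.ext h0
    have h2 : act γ base = ⟨L, hL⟩ := by
      rw [← h1, ← Equiv.Perm.mul_apply, ← map_mul, mul_inv_cancel, map_one]; rfl
    rw [path, h2]
  induction L using List.reverseRecOn with
  | nil => intro _ _; rfl
  | append_singleton L x ih =>
    intro hL h
    have hL0 : L.IsChain R := hL.left_of_append
    have h0 : (path γ).head? ≠ L.head? := by
      cases L with
      | nil => simpa using hγ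
      | cons y L => exact h
    rw [← ih hL0 h0]
    exact (adj_act γ⁻¹ ⟨L ++ [x], hL⟩ ⟨L, hL0⟩ (Or.inr ⟨x, rfl⟩)).head (ne _ hL h) (ne _ hL0 h0)

noncomputable def data (G : Type) [Group G] : SideData G where
  side γ := (path γ).head?
  len γ := (path γ).length
  none_iff γ := by
    rw [List.head?_eq_none_iff]
    constructor
    · intro h
      obtain ⟨g, hg⟩ := pr_act γ base
      refine ⟨g, ?_⟩
      rw [show (act γ base).1 = [] from h] at hg
      simpa [base, pr] using hg
    · rintro ⟨g, rfl⟩
      exact act_inl g base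
  side_mul_inl γ g := by rw [path_mul_inl]
  len_mul_inl γ g := by rw [path_mul_inl]
  side_inl_mul γ g := by
    rw [path_inl_mul]
    cases path γ <;> rfl
  len_inl_mul γ g := by
    rw [path_inl_mul]
    cases path γ <;> rfl
  side_T g ε := by
    rw [path_inl_mul, path_TT]; simp [gl]
  side_mul_T γ ε h1 h2 := by
    rw [Ne, List.head?_eq_none_iff] at h1 h2
    refine Adj.head ?_ h2 h1
    rw [path_mul, path]
    refine adj_act γ _ _ (Or.inr ⟨(1, ε), ?_⟩)
    exact act_TT ε base
  len_step γ g ε h := by
    rw [mul_inv_rev, TT_inv, ← map_inv, mul_assoc, path_TT_mul, path_inl_mul]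
    cases hp : path γ with
    | nil => rw [hp] at h; simp at h
    | cons x L =>
      rw [hp] at h
      simp only [List.head?_cons, Option.some.injEq] at h
      subst h
      simp [gl, tl]
  len_T_mul γ ε := by
    rw [path_TT_mul]
    cases path γ with
    | nil => simp [tl]
    | cons x L =>
      simp only [tl]
      split_ifs <;> simp
      omega
  len_zero γ := by
    rw [List.head?_eq_none_iff, List.length_eq_zero_iff]
  through γ γ' h1 h2 := by
    rw [Ne, List.head?_eq_none_iff] at h1
    rw [path_mul]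
    exact through_aux γ h1 _ (act γ' base).2 h2

theorem thm_side : S_side := fun G _ => ⟨data G⟩

end Pool.Agent.H915Z.Side
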